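import Pool.Agent.J4H22.IX.Tre

set_option autoImplicit false

/-! Project IX, piece A3: witnesses and counting. -/

namespace Pool.Agent.J4H91.IX

open Finset Pool.Agent.J4H22.IX

theorem rep_pos {A B : Finset ℕ} {z : ℕ} : 1 ≤ rep A B z ↔ ∃ x ∈ A, ∃ y ∈ B, x + y = z := by
  unfold rep
  rw [Nat.succ_le_iff, card_pos]
  constructor
  · rintro ⟨q, hq⟩
    rw [mem_filter, mem_product] at hq
    exact ⟨q.1, hq.1.1, q.2, hq.1.2, hq.2⟩
  · rintro ⟨x, hx, y, hy, h⟩
    exact ⟨(x, y), by rw [mem_filter, mem_product]; exact ⟨⟨hx, hy⟩, h⟩⟩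

theorem rep_le {A B : Finset ℕ} {z : ℕ} : rep A B z ≤ A.card := by
  unfold rep
  refine card_le_card_of_injOn (fun q => q.1) ?_ ?_
  · intro q hq
    rw [mem_coe, mem_filter, mem_product] at hq
    exact hq.1.1
  · intro q hq q' hq' h
    rw [mem_coe, mem_filter, mem_product] at hq hq'
    have h1 : q.1 = q'.1 := h
    have h2 : q.2 = q'.2 := by omega
    exact Prod.ext h1 h2

theorem rep_unique {A B : Finset ℕ} {z x y x' y' : ℕ} (h : rep A B z = 1) (hx : x ∈ A) (hy : y ∈ B) (hxy : x + y = z)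
    (hx' : x' ∈ A) (hy' : y' ∈ B) (hxy' : x' + y' = z) : x = x' := by
  unfold rep at h
  obtain ⟨a, ha⟩ := card_eq_one.1 h
  have h1 : (x, y) ∈ ({q ∈ A ×ˢ B | q.1 + q.2 = z} : Finset (ℕ × ℕ)) := by
    rw [mem_filter, mem_product]; exact ⟨⟨hx, hy⟩, hxy⟩
  have h2 : (x', y') ∈ ({q ∈ A ×ˢ B | q.1 + q.2 = z} : Finset (ℕ × ℕ)) := by
    rw [mem_filter, mem_product]; exact ⟨⟨hx', hy'⟩, hxy'⟩
  rw [ha, mem_singleton] at h1 h2
  exact congrArg Prod.fst (h1.trans h2.symm)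

/-- the names of the parts for the witness -/
abbrev K1 (w : ℕ) : Type := Fin (w + 1) × Fin (4 * (w + 1)) × Fin w × Bool

/-- the names of the parts for counting -/
abbrev K2 (w : ℕ) : Type := Fin (w + 1) × Fin (2 * (w + 1))

/-- the pair is isolated -/
def Iso (w : ℕ) (ans : K1 w → Bool) (p : Fin (w + 1) × Fin (4 * (w + 1))) : Prop :=
  ∀ β, ans (p.1, p.2, β, true) ≠ ans (p.1, p.2, β, false)

open Classical in
/-- the witness -/
noncomputable def wit (w z : ℕ) (ans : K1 w → Bool) : Option (ℕ × ℕ) :=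
  if h : ∃ p, Iso w ans p then
    some (Nat.ofBits (fun β => ans (h.choose.1, h.choose.2, β, true)),
      z - Nat.ofBits (fun β => ans (h.choose.1, h.choose.2, β, true)))
  else none

open Classical in
/-- the estimate -/
noncomputable def est (w : ℕ) (ans : K2 w → Bool) : ℕ :=
  2 ^ (univ.filter (fun i : Fin (w + 1) => w + 1 ≤ {j | ans (i, j) = true}.ncard)).sup (fun i => (i : ℕ))

open Classical in
/-- the output -/
noncomputable def out (w z : ℕ) (ans : K1 w ⊕ K2 w → Bool) : Option (ℕ × ℕ) × ℕ :=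
  if wit w z (fun c => ans (Sum.inl c)) = none then (none, 0)
  else (wit w z (fun c => ans (Sum.inl c)), est w (fun c => ans (Sum.inr c)))

/-- the parts -/
def part (w : ℕ) (S : Fin (w + 1) → Fin (4 * (w + 1)) → Finset ℕ) (S' : Fin (w + 1) → Fin (2 * (w + 1)) → Finset ℕ) :
    K1 w ⊕ K2 w → Finset ℕ
  | .inl c => (S c.1 c.2.1).filter (fun x => x.testBit c.2.2.1 = c.2.2.2)
  | .inr c => S' c.1 c.2

theorem iso_spec {w z : ℕ} {S : Fin (w + 1) → Fin (4 * (w + 1)) → Finset ℕ} {A B : Finset ℕ} (hw : 1 ≤ w)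
    (hS : ∀ i j, S i j ⊆ A) (hA : ∀ x ∈ A, x < 2 ^ w) (ans : K1 w → Bool)
    (hans : ∀ c : K1 w, ans c = true ↔ 1 ≤ rep ((S c.1 c.2.1).filter (fun x => x.testBit c.2.2.1 = c.2.2.2)) B z)
    (p : Fin (w + 1) × Fin (4 * (w + 1))) (hp : Iso w ans p) :
    Nat.ofBits (fun β => ans (p.1, p.2, β, true)) ∈ A ∧
      ∃ y ∈ B, Nat.ofBits (fun β => ans (p.1, p.2, β, true)) + y = z := by
  have h0 : ∃ x ∈ S p.1 p.2, ∃ y ∈ B, x + y = z := by
    have h1 := hp ⟨0, hw⟩
    have h2 : ∃ b, ans (p.1, p.2, ⟨0, hw⟩, b) = true := by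
      by_contra hcon
      rw [not_exists] at hcon
      apply h1
      have h3 := (Bool.not_eq_true _).mp (hcon true)
      have h4 := (Bool.not_eq_true _).mp (hcon false)
      exact h3.trans h4.symm
    obtain ⟨b, hb⟩ := h2
    obtain ⟨x, hx, y, hy, hxy⟩ := rep_pos.1 ((hans _).1 hb)
    exact ⟨x, (mem_filter.1 hx).1, y, hy, hxy⟩
  obtain ⟨x, hx, y, hy, hxy⟩ := h0
  have hxA := hS _ _ hx
  have hbits : (fun β : Fin w => ans (p.1, p.2, β, true)) = fun β : Fin w => x.testBit β := by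
    funext β
    have h1 : ans (p.1, p.2, β, x.testBit β) = true := by
      rw [hans]
      exact rep_pos.2 ⟨x, mem_filter.2 ⟨hx, rfl⟩, y, hy, hxy⟩
    have h2 := hp β
    cases hb : x.testBit β
    · rw [hb] at h1
      rw [h1] at h2
      exact (Bool.not_eq_true _).mp h2
    · rw [hb] at h1
      exact h1
  rw [hbits, Nat.ofBits_testBit, Nat.mod_eq_of_lt (hA x hxA)]
  exact ⟨hxA, y, hy, hxy⟩

theorem wit_spec {w z : ℕ} {S : Fin (w + 1) → Fin (4 * (w + 1)) → Finset ℕ} {A B : Finset ℕ} (hw : 1 ≤ w)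
    (hS : ∀ i j, S i j ⊆ A) (hA : ∀ x ∈ A, x < 2 ^ w) (ans : K1 w → Bool)
    (hans : ∀ c : K1 w, ans c = true ↔ 1 ≤ rep ((S c.1 c.2.1).filter (fun x => x.testBit c.2.2.1 = c.2.2.2)) B z)
    (hiso : 1 ≤ rep A B z → ∃ i j, rep (S i j) B z = 1) :
    (rep A B z = 0 → wit w z ans = none) ∧
    (1 ≤ rep A B z → ∃ x ∈ A, ∃ y ∈ B, x + y = z ∧ wit w z ans = some (x, y)) := by
  constructor
  · intro h0
    unfold wit
    rw [dif_neg]
    rintro ⟨p, hp⟩
    obtain ⟨h1, y, hy, h2⟩ := iso_spec hw hS hA ans hans p hp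
    have := rep_pos.2 ⟨_, h1, y, hy, h2⟩
    omega
  · intro h1
    obtain ⟨i, j, hij⟩ := hiso h1
    have hex : ∃ p, Iso w ans p := by
      refine ⟨(i, j), fun β heq => ?_⟩
      obtain ⟨x, hx, y, hy, hxy⟩ := rep_pos.1 (le_of_eq hij.symm)
      have h2 : ∀ b, ans (i, j, β, b) = true → x.testBit β = b := by
        intro b hb
        obtain ⟨x', hx', y', hy', hxy'⟩ := rep_pos.1 ((hans _).1 hb)
        rw [mem_filter] at hx'
        rw [rep_unique hij hx hy hxy hx'.1 hy' hxy']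
        exact hx'.2
      have h3 : ans (i, j, β, x.testBit β) = true := by
        rw [hans]
        exact rep_pos.2 ⟨x, mem_filter.2 ⟨hx, rfl⟩, y, hy, hxy⟩
      have heq' : ans (i, j, β, true) = ans (i, j, β, false) := heq
      cases hb : x.testBit β
      · rw [hb] at h3
        rw [h3] at heq'
        have := h2 true heq'
        rw [hb] at this
        exact Bool.noConfusion this
      · rw [hb] at h3
        rw [h3] at heq'
        have := h2 false heq'.symm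
        rw [hb] at this
        exact Bool.noConfusion this
    obtain ⟨h4, y, hy, h5⟩ := iso_spec hw hS hA ans hans hex.choose hex.choose_spec
    refine ⟨_, h4, y, hy, h5, ?_⟩
    unfold wit
    rw [dif_pos hex]
    congr 2
    omega

theorem est_spec {w r : ℕ} (ans : K2 w → Bool) (hr1 : 1 ≤ r) (hr2 : r ≤ 2 ^ w)
    (h : ∀ i : Fin (w + 1), (4 * 2 ^ (i : ℕ) ≤ r → w + 1 < {j | ans (i, j) = true}.ncard) ∧
      (8 * r ≤ 2 ^ (i : ℕ) → {j | ans (i, j) = true}.ncard < w + 1)) :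
    r ≤ 8 * est w ans ∧ est w ans ≤ 8 * r := by
  classical
  unfold est
  set F := univ.filter (fun i : Fin (w + 1) => w + 1 ≤ {j | ans (i, j) = true}.ncard) with hF
  constructor
  · by_contra hcon
    rw [not_le] at hcon
    by_cases hm : F.sup (fun i => (i : ℕ)) + 1 < w + 1
    · have h1 := (h ⟨F.sup (fun i => (i : ℕ)) + 1, hm⟩).1 (by
        show 4 * 2 ^ (F.sup (fun i => (i : ℕ)) + 1) ≤ r
        rw [pow_succ]; omega)
      have h2 : (⟨F.sup (fun i => (i : ℕ)) + 1, hm⟩ : Fin (w + 1)) ∈ F := by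
        exact mem_filter.2 ⟨mem_univ _, h1.le⟩
      have h3 := le_sup (f := fun i : Fin (w + 1) => (i : ℕ)) h2
      have h4 : F.sup (fun i => (i : ℕ)) + 1 ≤ F.sup (fun i => (i : ℕ)) := h3
      omega
    · have h1 : 2 ^ w ≤ 2 ^ F.sup (fun i => (i : ℕ)) := Nat.pow_le_pow_right (by norm_num) (by omega)
      omega
  · rcases F.eq_empty_or_nonempty with hE | hE
    · rw [hE, sup_empty]
      show 2 ^ 0 ≤ 8 * r
      omega
    · obtain ⟨i, hi, hi'⟩ := exists_mem_eq_sup F hE (fun i => (i : ℕ))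
      rw [hi']
      by_contra hcon
      rw [not_le] at hcon
      have h1 := (h i).2 hcon.le
      rw [hF, mem_filter] at hi
      omega

theorem t_A3 : S_A3 := by
  rintro hISO hCNT hHIT hMAJ hSAM hTRE hIDX n s w t hw hn ⟨Q, hQt, hQ⟩
  have : Inhabited (Fin (2 ^ w)) := ⟨⟨0, Nat.two_pow_pos w⟩⟩
  have hT : ∀ z : ℕ, ∃ T : Tree (Empty ⊕ (K1 w ⊕ K2 w) × Fin s) (Fin (2 ^ w)) (Option (ℕ × ℕ) × ℕ),
      T.Probes (Fintype.card Empty + Fintype.card (K1 w ⊕ K2 w) * t) ∧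
      ∀ m, T.eval m = out w z (fun c => (Q z).eval fun i => m (Sum.inr (c, i))) := fun z =>
    hTRE (Fin s) (Fin (2 ^ w)) Bool (Option (ℕ × ℕ) × ℕ) Empty (K1 w ⊕ K2 w) Q t hQt (fun _ _ => z)
      (fun _ ans => out w z ans)
  choose T hT1 hT2 using hT
  have hcard : Fintype.card (K1 w ⊕ K2 w) ≤ 10 * (w + 1) ^ 3 := by
    simp only [Fintype.card_sum, Fintype.card_prod, Fintype.card_fin, Fintype.card_bool]
    nlinarith [sq_nonneg (w : ℤ), Nat.zero_le w, Nat.zero_le (w * w), Nat.zero_le (w * w * w)]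
  obtain ⟨Q', hQ'1, hQ'2⟩ := hIDX (Empty ⊕ (K1 w ⊕ K2 w) × Fin s) (Fin (2 ^ w)) (Option (ℕ × ℕ) × ℕ)
    (10 * (w + 1) ^ 3 * s) (10 * (w + 1) ^ 3 * t) (by
      rw [Fintype.card_sum, Fintype.card_prod, Fintype.card_empty, Fintype.card_fin, zero_add]
      exact Nat.mul_le_mul_right s hcard) T (fun z => (hT1 z).mono (by
      rw [Fintype.card_empty, zero_add]
      exact Nat.mul_le_mul_right t hcard))
  refine ⟨Q', hQ'1, fun A B hA hB hA' hB' => ?_⟩
  obtain ⟨S, hS1, hS2⟩ := hISO hHIT hSAM w A B (hA.trans hn)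
  obtain ⟨S', hS'1, hS'2⟩ := hCNT hMAJ hSAM w A B
  have hpart : ∀ c, part w S S' c ⊆ A := by
    rintro (c | c)
    · exact (filter_subset _ _).trans (hS1 _ _)
    · exact hS'1 _ _
  have hm : ∀ c, ∃ m : Fin s → Fin (2 ^ w), ∀ z, OkFull (part w S S' c) B z ((Q z).eval m) := fun c =>
    hQ (part w S S' c) B ((card_le_card (hpart c)).trans hA) hB (fun x hx => hA' x (hpart c hx)) hB'
  choose m hm using hm
  obtain ⟨m', hm'⟩ := hQ'2 (fun e => Sum.elim Empty.elim (fun p => m p.1 p.2) e)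
  refine ⟨m', fun z => ?_⟩
  rw [hm' z, hT2 z]
  show OkStrong A B z (out w z (fun c => (Q z).eval (m c)))
  have hiso : 1 ≤ rep A B z → z < 2 ^ (w + 1) := by
    intro h
    obtain ⟨x, hx, y, hy, hxy⟩ := rep_pos.1 h
    have h1 := hA' x hx
    have h2 := hB' y hy
    rw [pow_succ]
    omega
  obtain ⟨hw1, hw2⟩ := wit_spec (z := z) (S := S) (A := A) (B := B) hw hS1 hA' (fun c => (Q z).eval (m (Sum.inl c)))
    (fun c => hm (Sum.inl c) z) (fun h => hS2 z (hiso h) h)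
  constructor
  · intro h0
    unfold out
    rw [if_pos (hw1 h0)]
  · intro h1
    obtain ⟨x, hx, y, hy, hxy, hwit⟩ := hw2 h1
    have hout : out w z (fun c => (Q z).eval (m c)) = (some (x, y), est w (fun c => (Q z).eval (m (Sum.inr c)))) := by
      unfold out
      rw [if_neg (by rw [hwit]; exact Option.some_ne_none _), hwit]
    have hest := est_spec (w := w) (r := rep A B z) (fun c => (Q z).eval (m (Sum.inr c))) h1
      (rep_le.trans (hA.trans hn)) (fun i => by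
        have h2 : {j | (Q z).eval (m (Sum.inr (i, j))) = true} = {j | 1 ≤ rep (S' i j) B z} := by
          ext j
          exact hm (Sum.inr (i, j)) z
        show (4 * 2 ^ (i : ℕ) ≤ rep A B z → w + 1 < {j | (Q z).eval (m (Sum.inr (i, j))) = true}.ncard) ∧
          (8 * rep A B z ≤ 2 ^ (i : ℕ) → {j | (Q z).eval (m (Sum.inr (i, j))) = true}.ncard < w + 1)
        rw [h2]
        exact hS'2 z (hiso h1) i)
    rw [hout]
    exact ⟨⟨x, hx, y, hy, hxy, rfl⟩, hest.1, hest.2⟩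

end Pool.Agent.J4H91.IX
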