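import Pool.Agent.J4H60.IX.Der
import Pool.Agent.J4H22.IX.Stm3

set_option autoImplicit false

/-! Project IX (helper22), part 3, piece DEC: DER (helper60) for a class of sets. -/

namespace Pool.Agent.J4H91.IX

open Finset Pool.Agent.J4H22.IX Pool.Agent.J4H60.IX

theorem t_DEC : S_DEC := by
  intro hNEW hMAJ hTRE hIDX Cl n N s w t hw hn hN hCl hR
  classical
  obtain ⟨Ω, hΩ, μ, Q, hμ0, hμ1, hQ, hst⟩ := hR
  have : Inhabited (Fin (2 ^ w)) := ⟨⟨0, by positivity⟩⟩
  -- the memory for `A`, `B`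
  have hmem : ∀ A B : Finset ℕ, ∃ m : Ω → Fin s → Fin (2 ^ w), Cl A → Cl B → ∀ z,
        1 / 2 + 31 / 64 ≤ ∑ ω, ({ω | OkWeak A B z ((Q ω z).eval (m ω))} : Set Ω).indicator μ ω := by
    intro A B
    by_cases h : Cl A ∧ Cl B
    · obtain ⟨m, hm⟩ := hst A B h.1 h.2
      exact ⟨m, fun _ _ => hm⟩
    · exact ⟨fun _ _ => default, fun h1 h2 => absurd ⟨h1, h2⟩ h⟩
  choose M hM using hmem
  set m := 3 * (w + 1) * (n + 1) with hm
  have hm1 : 1 ≤ m := Nat.one_le_iff_ne_zero.2 (by positivity)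
  set P := ((range N).powerset).filter (fun S => S.card ≤ n) with hP
  have hPc : P.card ≤ 2 ^ ((w + 1) * n) := by
    refine (card_small n N).trans ?_
    rw [pow_mul]
    apply Nat.pow_le_pow_left
    have : 1 ≤ 2 ^ w := Nat.one_le_two_pow
    rw [pow_succ]
    omega
  have hZc : ((P ×ˢ P ×ˢ range (2 * N)).filter (fun q => Cl q.1 ∧ Cl q.2.1)).card ≤ 2 ^ m := by
    refine (card_filter_le _ _).trans ?_
    rw [card_product, card_product, card_range]
    have h2 : 2 * N ≤ 2 ^ (w + 1) := by rw [pow_succ]; omega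
    calc P.card * (P.card * (2 * N)) ≤ 2 ^ ((w + 1) * n) * (2 ^ ((w + 1) * n) * 2 ^ (w + 1)) :=
          Nat.mul_le_mul hPc (Nat.mul_le_mul hPc h2)
      _ = 2 ^ ((w + 1) * n + ((w + 1) * n + (w + 1))) := by rw [← pow_add, ← pow_add]
      _ ≤ 2 ^ m := by
          apply Nat.pow_le_pow_right (by norm_num)
          rw [hm]
          nlinarith
  obtain ⟨f, hf⟩ := hNEW Ω (Finset ℕ × Finset ℕ × ℕ) μ
    ((P ×ˢ P ×ˢ range (2 * N)).filter (fun q => Cl q.1 ∧ Cl q.2.1))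
    (fun q => {ω | ω ∉ ({ω | OkWeak q.1 q.2.1 q.2.2 ((Q ω q.2.2).eval (M q.1 q.2.1 ω))} : Set Ω)})
    m hm1 hμ0 hμ1 (by
      rintro ⟨A, B, z⟩ hq
      obtain ⟨-, hA1, hB1⟩ := mem_filter.1 hq
      have h1 := hM A B hA1 hB1 z
      have h2 := sum_ind_compl μ ({ω | OkWeak A B z ((Q ω z).eval (M A B ω))} : Set Ω)
      rw [hμ1] at h2
      simp only at h1 h2 ⊢
      linarith) hZc
  set k := w + 1 with hk
  have h8m : 0 < 8 * m := by omega
  -- the coin with index `x`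
  set f' : ℕ → Ω := fun x => if h : x < 8 * m then f ⟨x, h⟩ else f ⟨0, h8m⟩ with hf'
  have hTr : ∀ z, ∃ T : Tree ((Fin (2 * k) × Bool) ⊕ Fin (2 * k) × Fin s) (Fin (2 ^ w)) Bool,
      T.Probes (2 * k * (t + 2)) ∧ (2 * N ≤ z → ∀ μ', T.eval μ' = false) ∧ (z < 2 * N →
      ∀ μ' : (Fin (2 * k) × Bool) ⊕ Fin (2 * k) × Fin s → Fin (2 ^ w), T.eval μ' =
        decide (k ≤ (univ.filter (fun c : Fin (2 * k) =>
          (Q (f' ((μ' (Sum.inl (c, false)) : ℕ) + 2 ^ w * (μ' (Sum.inl (c, true)) : ℕ))) z).eval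
            (fun i => μ' (Sum.inr (c, i))) = true)).card)) := by
    intro z
    rcases Nat.lt_or_ge z (2 * N) with hz | hz
    · obtain ⟨T, hT1, hT2⟩ := hTRE (Fin s) (Fin (2 ^ w)) Bool Bool (Fin (2 * k) × Bool) (Fin (2 * k))
        (fun q => Q (f' (Nat.unpair q).1) (Nat.unpair q).2) t (fun q => hQ _ _)
        (fun e c => Nat.pair ((e (c, false) : ℕ) + 2 ^ w * (e (c, true) : ℕ)) z)
        (fun _ o => decide (k ≤ (univ.filter (fun c => o c = true)).card))
      refine ⟨T, ?_, fun h => absurd hz (not_lt.2 h), fun _ μ' => ?_⟩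
      · have h1 : Fintype.card (Fin (2 * k) × Bool) + Fintype.card (Fin (2 * k)) * t =
            2 * k * (t + 2) := by
          rw [Fintype.card_prod, Fintype.card_fin, Fintype.card_bool]; ring
        rw [← h1]
        exact hT1
      · rw [hT2]
        simp only [Nat.unpair_pair]
    · exact ⟨Tree.ret false, trivial, fun _ _ => rfl, fun h => absurd h (not_lt.2 hz)⟩
  choose T hT1 hT2 hT3 using hTr
  obtain ⟨Q', hQ'1, hQ'2⟩ := hIDX ((Fin (2 * k) × Bool) ⊕ Fin (2 * k) × Fin s) (Fin (2 ^ w)) Bool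
    (2 * k * (s + 2)) (2 * k * (t + 2)) (le_of_eq (by
      rw [Fintype.card_sum, Fintype.card_prod, Fintype.card_prod, Fintype.card_fin,
        Fintype.card_fin, Fintype.card_bool]; ring)) T hT1
  refine ⟨Q', hQ'1, fun A B hClA hClB => ?_⟩
  have hA := (hCl A hClA).1
  have hB := (hCl B hClB).1
  have hAN := (hCl A hClA).2
  have hBN := (hCl B hClB).2
  -- the choice of the coins for `A`, `B`
  obtain ⟨g, hg⟩ := hMAJ (Fin (8 * m)) ℕ (fun _ => 1 / (8 * m : ℝ)) (range (2 * N))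
    (fun z => {j | f j ∈ ({ω | ω ∉ ({ω | OkWeak A B z ((Q ω z).eval (M A B ω))} : Set Ω)} : Set Ω)})
    k (by omega) (fun _ => by positivity) (by
      rw [sum_const, card_univ, Fintype.card_fin, nsmul_eq_mul]
      have : (m : ℝ) ≠ 0 := by positivity
      push_cast
      field_simp) (by
      intro z hz
      rw [sum_ind_const]
      have h1 := hf (A, B, z) (by
        refine mem_filter.2 ⟨?_, hClA, hClB⟩
        simp only [mem_product, hP, mem_filter, mem_powerset]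
        exact ⟨⟨fun x hx => mem_range.2 (hAN x hx), hA⟩,
          ⟨fun x hx => mem_range.2 (hBN x hx), hB⟩, hz⟩)
      have h2 : (({j | f j ∈ ({ω | ω ∉ ({ω | OkWeak A B z ((Q ω z).eval (M A B ω))} : Set Ω)} :
        Set Ω)} : Set (Fin (8 * m))).ncard : ℝ) ≤ m := by exact_mod_cast h1.le
      have h3 : (0 : ℝ) < m := by positivity
      rw [mul_one_div, div_le_div_iff₀ (by positivity) (by norm_num)]
      linarith) (by
      rw [card_range, hk, pow_succ]
      omega)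
  -- the memory
  have hlt : ∀ c, (g c : ℕ) < 2 ^ w * 2 ^ w := fun c => lt_of_lt_of_le (g c).2 (arith hw hn)
  set μ' : (Fin (2 * k) × Bool) ⊕ Fin (2 * k) × Fin s → Fin (2 ^ w) := fun x =>
    match x with
    | Sum.inl (c, false) => ⟨(g c : ℕ) % 2 ^ w, Nat.mod_lt _ (by positivity)⟩
    | Sum.inl (c, true) => ⟨(g c : ℕ) / 2 ^ w, Nat.div_lt_of_lt_mul (hlt c)⟩
    | Sum.inr (c, i) => M A B (f (g c)) i with hμ'
  obtain ⟨m', hm'⟩ := hQ'2 μ'
  refine ⟨m', fun z => ?_⟩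
  rw [hm']
  rcases Nat.lt_or_ge z (2 * N) with hz | hz
  · rw [hT3 z hz]
    intro hrep
    have hfg : ∀ c, f' ((μ' (Sum.inl (c, false)) : ℕ) + 2 ^ w * (μ' (Sum.inl (c, true)) : ℕ)) =
        f (g c) := by
      intro c
      have h1 : (μ' (Sum.inl (c, false)) : ℕ) + 2 ^ w * (μ' (Sum.inl (c, true)) : ℕ) = (g c : ℕ) :=
        Nat.mod_add_div _ _
      rw [h1, hf']
      simp only [(g c).2, dite_true, Fin.eta]
    simp only [hfg]
    apply major
    refine lt_of_le_of_lt (Set.ncard_le_ncard ?_ (Set.toFinite _)) (hg z (mem_range.2 hz))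
    intro c hc hc2
    exact hc (hc2 hrep)
  · rw [hT2 z hz]
    intro _
    rw [rep_big hAN hBN hz]
    simp

end Pool.Agent.J4H91.IX
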